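import Mathlib

/-!
# Determinantal representations over fields of characteristic zero give representations over `ℂ`
-/

set_option autoImplicit false
set_option linter.unusedSectionVars false

namespace Pool.Agent.L5helper57.DC

open MvPolynomial

universe u

/-- a finitely generated algebra over the rational numbers maps to the complex numbers -/
theorem exists_hom (R : Type u) [CommRing R] [Algebra ℚ R] [Nontrivial R]
    [Algebra.FiniteType ℚ R] : Nonempty (R →ₐ[ℚ] ℂ) := by
  obtain ⟨M, hM⟩ := Ideal.exists_maximal R
  let : Field (R ⧸ M) := Ideal.Quotient.field M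
  have : Algebra.FiniteType ℚ (R ⧸ M) := inferInstance
  have : Module.Finite ℚ (R ⧸ M) := finite_of_finite_type_of_isJacobsonRing ℚ (R ⧸ M)
  have : Algebra.IsAlgebraic ℚ (R ⧸ M) := Algebra.IsAlgebraic.of_finite ℚ (R ⧸ M)
  exact ⟨(IsAlgClosed.lift (R := ℚ) (S := R ⧸ M) (M := ℂ)).comp (Ideal.Quotient.mkₐ ℚ M)⟩

/-- maps and the permanent of the generic matrix -/
lemma map_perm {σ R S : Type*} [CommRing R] [CommRing S] (f : R →+* S) (m : ℕ)
    (e : Fin m → Fin m → σ) :
    map f (Matrix.permanent (Matrix.of fun i j => (X (e i j) : MvPolynomial σ R))) =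
      Matrix.permanent (Matrix.of fun i j => (X (e i j) : MvPolynomial σ S)) := by
  simp only [Matrix.permanent, map_sum, map_prod, Matrix.of_apply, map_X]

theorem transfer {F : Type u} [Field F] [CharZero F] (m n : ℕ)
    (A : Matrix (Fin n) (Fin n) (MvPolynomial (Fin m × Fin m) F))
    (hA : ∀ i j, (A i j).totalDegree ≤ 1)
    (hdet : A.det = Matrix.permanent (Matrix.of fun i j => MvPolynomial.X (i, j))) :
    ∃ A' : Matrix (Fin n) (Fin n) (MvPolynomial (Fin m × Fin m) ℂ),
      (∀ i j, (A' i j).totalDegree ≤ 1) ∧
      A'.det = Matrix.permanent (Matrix.of fun i j => MvPolynomial.X (i, j)) := by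
  classical
  set S : Finset F := Finset.univ.biUnion fun p : Fin n × Fin n => (A p.1 p.2).coeffs with hS
  set R : Subalgebra ℚ F := Algebra.adjoin ℚ (S : Set F) with hR
  have : Algebra.FiniteType ℚ R := R.fg_iff_finiteType.1 (Subalgebra.fg_adjoin_finset S)
  obtain ⟨ψ⟩ := exists_hom R
  have hinj : Function.Injective (R.val : R →+* F) := Subtype.val_injective
  have hinj' : Function.Injective (map (σ := Fin m × Fin m) (R.val : R →+* F)) :=
    map_injective _ hinj
  have hlift : ∀ i j, ∃ a : MvPolynomial (Fin m × Fin m) R, map (R.val : R →+* F) a = A i j := by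
    intro i j
    have h1 : A i j ∈ Set.range (map (σ := Fin m × Fin m) (R.val : R →+* F)) := by
      rw [mem_range_map_iff_coeffs_subset]
      intro c hc
      refine ⟨⟨c, Algebra.subset_adjoin ?_⟩, rfl⟩
      rw [hS, Finset.mem_coe, Finset.mem_biUnion]
      exact ⟨(i, j), Finset.mem_univ _, hc⟩
    exact h1
  choose a ha using hlift
  refine ⟨fun i j => map (ψ : R →+* ℂ) (a i j), fun i j => ?_, ?_⟩
  · have h1 : (map (ψ : R →+* ℂ) (a i j)).totalDegree ≤ (a i j).totalDegree := by
      rw [totalDegree, totalDegree]
      exact Finset.sup_mono (support_map_subset _ _)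
    have h2 : (a i j).totalDegree = (A i j).totalDegree := by
      rw [← ha, totalDegree, totalDegree, support_map_of_injective _ hinj]
    rw [h2] at h1
    exact h1.trans (hA i j)
  · have h1 : (map (R.val : R →+* F)) (Matrix.det (Matrix.of a)) = A.det := by
      rw [RingHom.map_det]
      congr 1
      ext1 i j
      exact ha i j
    have h2 : Matrix.det (Matrix.of a) =
        Matrix.permanent (Matrix.of fun i j => (X (i, j) : MvPolynomial (Fin m × Fin m) R)) := by
      apply hinj'
      rw [h1, hdet, map_perm]
    have h3 := congrArg (map (ψ : R →+* ℂ)) h2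
    rw [map_perm, RingHom.map_det] at h3
    exact h3

end Pool.Agent.L5helper57.DC
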